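import Pool.Agent.H.MP_51339e_an.A

namespace Pool.Agent.Results.MP_51339e_an.No

open Filter Set Pool.Agent.H.MP_51339e_an
open scoped MeasureTheory

theorem result (K : Type) [RCLike K] :
    ∃ (X : Type) (_ : NormedAddCommGroup X) (_ : NormedSpace K X) (_ : CompleteSpace X)
      (A : Submodule K X), Dense (A : Set X) ∧
      @Measurable _ _ ((Ba K X).comap Subtype.val) (borel ℝ) (fun a : A => ‖(a : X)‖) ∧
      ¬@Measurable _ _ (Ba K X) (borel ℝ) fun x : X => ‖x‖ := by
  refine ⟨(AA K).topologicalClosure, inferInstance, inferInstance,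
    (AA K).isClosed_topologicalClosure.completeSpace_coe,
    (AA K).comap (AA K).topologicalClosure.subtype, fun x => ?_, ?_,
    notm (K := K) (fun c => ⟨ev K c, ev_mem K c⟩) (fun c => ?_) fun F u hu => ?_⟩
  · rw [Topology.IsInducing.subtypeVal.closure_eq_preimage_closure_image]
    refine closure_mono (fun y hy => ?_) x.2
    exact ⟨⟨y, (AA K).le_topologicalClosure hy⟩, hy, rfl⟩
  · let X := (AA K).topologicalClosure
    let p : (ℕ × ℕ × ℤ) → X →L[K] K := fun i => (lp.evalCLM K _ ⊤ (Sum.inl i)).comp X.subtypeL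
    letI := (Ba K X).comap (Subtype.val : (AA K).comap X.subtype → X)
    refine measurable_of_Iic fun r => ⟨{x | (∀ i, ‖p i x‖ ≤ r) ∧ ∃ M : ℕ, ∀ m ≥ M, ∀ j : ℤ,
      ∃ L : ℕ, ∀ N ≥ L, ‖(∑ k ∈ Finset.range N, ((k : K) + 1) • p (k, m, j)) x‖ ≤ r}, ?_, ?_⟩
    · letI := Ba K X
      have := fun f r => measurableSet_setOf.1 (meas (K := K) (X := X) f r)
      exact measurableSet_setOf.2 ((Measurable.forall fun _ => this _ _).and
        (.exists fun _ => .forall fun _ => .imp measurable_const (.forall fun _ =>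
          .exists fun _ => .forall fun _ => .imp measurable_const (this _ _))))
    · ext a
      have := nrm K (a := a.1.1) a.2 r
      simp only [eventually_atTop] at this
      simpa [p, lp.evalCLM] using this.symm
  · change ‖ev K c‖ = 1
    refine le_antisymm (lp.norm_le_of_forall_le zero_le_one fun i => ?_) ?_
    · simp only [ev, H.MP_51339e_an.mk]; split_ifs <;> simp
    · refine le_trans ?_ (lp.norm_apply_le_norm ENNReal.top_ne_zero (ev K c) (.inr c))
      simp [ev, H.MP_51339e_an.mk]
  · change ‖((∑ c ∈ F, u c • (⟨ev K c, ev_mem K c⟩ : (AA K).topologicalClosure) :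
      (AA K).topologicalClosure) : Y K)‖ ≤ 1
    refine lp.norm_le_of_forall_le zero_le_one fun i => ?_
    simp only [Submodule.coe_sum, Submodule.coe_smul, lp.coeFn_sum, lp.coeFn_smul,
      Finset.sum_apply, Pi.smul_apply, smul_eq_mul]
    rcases i with i | c
    · simp [ev, H.MP_51339e_an.mk]
    · rw [Finset.sum_congr rfl (g := fun d => if c = d then u d else 0) fun d _ => by
        simp [ev, H.MP_51339e_an.mk], Finset.sum_ite_eq]
      split_ifs <;> simp [hu]

end Pool.Agent.Results.MP_51339e_an.No
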